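import Mathlib
import Pool.Agent.W746.LD.Koebe

/-!
# Distortion of a map with a holomorphic right inverse
-/

set_option autoImplicit false

open Complex Filter Topology Metric Set

namespace Pool.Agent.Y515.LC

open Pool.Agent.W746.LD (KC Univ exists_KC)

theorem dist_main {C0 k0 : ℝ} (K : KC C0 k0) {F h : ℂ → ℂ} {c0 w M : ℂ} {δ : ℝ} (hδ : 0 < δ)
    (hF : Differentiable ℂ F) (hM : HasDerivAt F M c0) (hw : ‖F c0 - w‖ < δ / 2)
    (hh : DifferentiableOn ℂ h (ball w δ)) (hinv : ∀ z ∈ ball w δ, F (h z) = z)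
    (h0 : h (F c0) = c0) : 0 < ‖M‖ ∧
    ∀ z ∈ ball c0 (k0 ^ 2 / 40 * δ / ‖M‖), ∀ z' ∈ ball c0 (k0 ^ 2 / 40 * δ / ‖M‖),
      ‖F z - F z' - M * (z - z')‖ ≤ ‖M‖ / 2 * ‖z - z'‖ := by
  have hk0 := K.pos
  have hk1 := K.le
  set w' := F c0 with hw'
  set ρ := δ / 2 with hρ
  have hρ0 : 0 < ρ := by positivity
  have hsub : ball w' ρ ⊆ ball w δ := by
    intro u hu
    rw [mem_ball, dist_eq_norm] at hu ⊢
    calc ‖u - w‖ = ‖(u - w') + (w' - w)‖ := by congr 1; ring
      _ ≤ ‖u - w'‖ + ‖w' - w‖ := norm_add_le _ _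
      _ < ρ + ρ := add_lt_add hu hw
      _ = δ := by rw [hρ]; ring
  have hmem : w' ∈ ball w δ := hsub (mem_ball_self hρ0)
  -- the derivative of `h`
  have hhd : HasDerivAt h (deriv h w') w' :=
    (hh.differentiableAt (isOpen_ball.mem_nhds hmem)).hasDerivAt
  have hcomp : M * deriv h w' = 1 := by
    have hM' : HasDerivAt F M (h w') := by rw [h0]; exact hM
    have e1 : HasDerivAt (fun u => F (h u)) (M * deriv h w') w' := hM'.comp w' hhd
    have e2 : HasDerivAt (fun u => F (h u)) 1 w' := by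
      refine (hasDerivAt_id w').congr_of_eventuallyEq ?_
      filter_upwards [isOpen_ball.mem_nhds hmem] with u hu
      exact hinv u hu
    exact e1.unique e2
  have hM0 : M ≠ 0 := left_ne_zero_of_mul_eq_one hcomp
  have hMn : 0 < ‖M‖ := norm_pos_iff.2 hM0
  have hdh : ‖deriv h w'‖ = 1 / ‖M‖ := by
    have := congrArg norm hcomp
    rw [norm_mul, norm_one] at this
    field_simp
    linarith
  refine ⟨hMn, ?_⟩
  -- the image of `h`
  set R0 := k0 * ρ / ‖M‖ with hR0
  have hR0p : 0 < R0 := by positivity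
  have hu : Univ h w' ρ := by
    refine ⟨hh.mono hsub, fun u hu v hv huv => ?_⟩
    rw [← hinv u (hsub hu), ← hinv v (hsub hv), huv]
  have hmaps : ∀ z ∈ ball c0 R0, ‖F z - w'‖ < ρ := by
    intro z hz
    by_contra hcon
    have homit : ∀ u ∈ ball w' ρ, h u ≠ z := by
      intro u hu' huz
      apply hcon
      rw [← huz, hinv u (hsub hu')]
      rwa [mem_ball, dist_eq_norm] at hu'
    have h2 := K.komit h w' ρ hρ0 hu z homit
    rw [hdh, h0] at h2
    rw [mem_ball, dist_eq_norm, norm_sub_rev] at hz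
    have e : k0 * ρ * (1 / ‖M‖) = R0 := by
      rw [hR0]
      ring
    rw [e] at h2
    linarith
  -- Cauchy estimate
  have hcau : ∀ z ∈ ball c0 (R0 / 2), ‖deriv F z‖ ≤ 2 * ρ / R0 := by
    intro z hz
    rw [mem_ball, dist_eq_norm] at hz
    have h2 : ‖deriv (fun u => F u - w') z‖ ≤ ρ / (R0 / 2) := by
      refine Complex.norm_deriv_le_of_forall_mem_sphere_norm_le (by positivity)
        (hF.sub_const w').diffContOnCl fun u hu' => ?_
      rw [mem_sphere, dist_eq_norm] at hu'
      refine (hmaps u ?_).le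
      rw [mem_ball, dist_eq_norm]
      calc ‖u - c0‖ = ‖(u - z) + (z - c0)‖ := by congr 1; ring
        _ ≤ ‖u - z‖ + ‖z - c0‖ := norm_add_le _ _
        _ < R0 := by rw [hu']; linarith
    rw [deriv_sub_const] at h2
    refine h2.trans (le_of_eq ?_)
    field_simp
  have hMd : deriv F c0 = M := hM.deriv
  have hdd : Differentiable ℂ (deriv F) := by
    have := hF.differentiableOn (s := univ)
    have h3 := (this.deriv isOpen_univ)
    exact fun z => (h3 z (mem_univ z)).differentiableAt univ_mem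
  -- Schwarz lemma
  have hsch : ∀ z ∈ ball c0 (R0 / 2), ‖deriv F z - M‖ ≤ (5 * ρ / R0) / (R0 / 2) * ‖z - c0‖ := by
    intro z hz
    have h3 : MapsTo (deriv F) (ball c0 (R0 / 2)) (ball (deriv F c0) (5 * ρ / R0)) := by
      intro u hu'
      rw [mem_ball, dist_eq_norm]
      have h4 := hcau u hu'
      have h5 := hcau c0 (mem_ball_self (by positivity))
      calc ‖deriv F u - deriv F c0‖ ≤ ‖deriv F u‖ + ‖deriv F c0‖ := norm_sub_le _ _
        _ ≤ 2 * ρ / R0 + 2 * ρ / R0 := add_le_add h4 h5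
        _ = 4 * ρ / R0 := by ring
        _ < 5 * ρ / R0 := by gcongr; norm_num
    have h4 := Complex.dist_le_div_mul_dist_of_mapsTo_ball (f := deriv F) (c := c0) (z := z)
      hdd.differentiableOn (h3.mono_right ball_subset_closedBall) hz
    rw [hMd, dist_eq_norm, dist_eq_norm] at h4
    exact h4
  have hk : k0 ^ 2 / 40 * δ / ‖M‖ = k0 / 20 * R0 := by
    rw [hR0, hρ]
    field_simp
    ring
  rw [hk]
  have hsmall : ∀ z ∈ ball c0 (k0 / 20 * R0), ‖deriv F z - M‖ ≤ ‖M‖ / 2 := by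
    intro z hz
    have hz2 : z ∈ ball c0 (R0 / 2) := by
      refine ball_subset_ball ?_ hz
      nlinarith
    refine (hsch z hz2).trans ?_
    rw [mem_ball, dist_eq_norm] at hz
    have h5 : ‖M‖ = k0 * ρ / R0 := by
      rw [hR0]
      field_simp
    calc 5 * ρ / R0 / (R0 / 2) * ‖z - c0‖ ≤ 5 * ρ / R0 / (R0 / 2) * (k0 / 20 * R0) := by
          gcongr
      _ = ‖M‖ / 2 := by
          rw [h5]
          field_simp
          ring
  intro z hz z' hz'
  have hconv : Convex ℝ (ball c0 (k0 / 20 * R0)) := convex_ball _ _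
  have hG : ∀ u ∈ ball c0 (k0 / 20 * R0),
      HasDerivWithinAt (fun u => F u - M * u) (deriv F u - M) (ball c0 (k0 / 20 * R0)) u := by
    intro u _
    have h1 := (hF u).hasDerivAt
    have h2 : HasDerivAt (fun u : ℂ => M * u) M u := by
      simpa using (hasDerivAt_id u).const_mul M
    exact (h1.sub h2).hasDerivWithinAt
  have h6 := hconv.norm_image_sub_le_of_norm_hasDerivWithin_le hG hsmall hz' hz
  refine le_trans (le_of_eq ?_) h6
  congr 1
  ring

end Pool.Agent.Y515.LC
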