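import Pool.Agent.Y272.LC.Stm2
import Pool.Agent.Y272.TY.Fin1
import Pool.Agent.Y515.LC.KoeA

/-!
# Project LC (helper272): KOE
-/

set_option autoImplicit false

open Complex Filter Topology Metric Set MeasureTheory

namespace Pool.Agent.Y515.LC

open Pool.Agent.H712R2 Pool.Agent.H713R2 Pool.Agent.H713R2.AR Pool.Agent.Y272.TY

theorem t : Pool.Agent.Y272.LC.St_Koe := by
  obtain ⟨C0, k0, K⟩ := Pool.Agent.W746.LD.exists_KC
  have hk0 := K.pos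
  have hk1 := K.le
  have hk2 : k0 ^ 2 / 40 ≤ 1 / 2 := by nlinarith
  refine ⟨k0 ^ 2 / 40, by positivity, by linarith, ?_⟩
  intro d c0 w δ n h hd hδ hw hh hinv h0
  have hFd : Differentiable ℂ ((fc d c0)^[n]) := by
    have h1 : Differentiable ℂ (fc d c0) := fun z => (deriv_fc d c0 z).differentiableAt
    exact h1.iterate n
  obtain ⟨hM, hmain⟩ := dist_main K hδ hFd (deriv_iter hd c0 n) hw hh hinv h0
  refine ⟨hM, fun z hz z' hz' => ?_⟩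
  have h1 := hmain z hz z' hz'
  set F := (fc d c0)^[n] with hF
  set M := MM d c0 (n + 1) with hMd
  have e1 : ‖M * (z - z')‖ = ‖M‖ * ‖z - z'‖ := norm_mul _ _
  have h2 : ‖M‖ * ‖z - z'‖ ≤ ‖F z - F z'‖ + ‖M‖ / 2 * ‖z - z'‖ := by
    rw [← e1]
    calc ‖M * (z - z')‖ = ‖(F z - F z') - (F z - F z' - M * (z - z'))‖ := by congr 1; ring
      _ ≤ ‖F z - F z'‖ + ‖F z - F z' - M * (z - z')‖ := norm_sub_le _ _
      _ ≤ _ := by linarith
  have h3 : ‖F z - F z'‖ ≤ ‖M‖ * ‖z - z'‖ + ‖M‖ / 2 * ‖z - z'‖ := by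
    rw [← e1]
    calc ‖F z - F z'‖ = ‖M * (z - z') + (F z - F z' - M * (z - z'))‖ := by congr 1; ring
      _ ≤ ‖M * (z - z')‖ + ‖F z - F z' - M * (z - z')‖ := norm_add_le _ _
      _ ≤ _ := by linarith
  have h4 : 0 ≤ ‖M‖ * ‖z - z'‖ := by positivity
  have h5 : 0 < k0 ^ 2 / 40 := by positivity
  constructor
  · have : k0 ^ 2 / 40 * ‖M‖ * ‖z - z'‖ ≤ 1 / 2 * (‖M‖ * ‖z - z'‖) := by
      rw [mul_assoc]
      exact mul_le_mul_of_nonneg_right hk2 h4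
    linarith
  · calc k0 ^ 2 / 40 * ‖F z - F z'‖ ≤ 1 / 2 * (‖M‖ * ‖z - z'‖ + ‖M‖ / 2 * ‖z - z'‖) := by
          exact mul_le_mul hk2 h3 (norm_nonneg _) (by norm_num)
      _ ≤ ‖M‖ * ‖z - z'‖ := by linarith

end Pool.Agent.Y515.LC
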